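import Pool.Agent.Matroid6d.Bridge2

/-!
For all but a `2^(-n)` fraction of the members of every class of matroids on `n` elements that is
closed under adding bases: a union of connected components of the graph on the non-bases that is
cut out by `t` sets has at most `2^(3 n t)` stable subfamilies, and so at most `3 n^2 t` members.
-/

set_option autoImplicit false

namespace Pool.Agent.Results.MP_6d0648_co.ComponentSize

open Pool.Agent.Matroid6d Finset

/-- `S` is a stable subfamily of `K` in the Johnson graph: no two of its members have all but one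
of their elements in common. -/
def IsStableIn {n : ℕ} (M : Matroid (Fin n)) (K S : Set (Set (Fin n))) : Prop :=
  S ⊆ K ∧ ∀ X ∈ S, ∀ Y ∈ S, X ≠ Y → (X ∩ Y).encard + 1 ≠ M.eRank

/-- Whenever a union of connected components of the graph on the non-bases of `M` is cut out by a
family of `t` subsets of the ground set, it has at most `2 ^ (3 n t)` stable subfamilies, and at
most `3 n² t` members. -/
def SmallComponents {n : ℕ} (M : Matroid (Fin n)) : Prop :=
  ∀ 𝓕 : Finset (Set (Fin n)), IsComponentUnion M (cutOut M 𝓕) →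
    {S | IsStableIn M (cutOut M 𝓕) S}.ncard ≤ 2 ^ (3 * n * 𝓕.card) ∧
      (cutOut M 𝓕).ncard ≤ 3 * n ^ 2 * 𝓕.card

/-- The sum of a geometrically decreasing sequence. -/
lemma geom_bound (q c : ℕ) (hq : 1 ≤ q) (b : ℕ → ℕ) (hb : ∀ t, b t * q ^ (t + 1) ≤ c) (N : ℕ) :
    (q - 1) * ∑ t ∈ range N, b t ≤ c := by
  have key : (q - 1) * (∑ t ∈ range N, b t) * q ^ N + c ≤ c * q ^ N := by
    induction N with
    | zero => simp
    | succ N ih =>
      obtain ⟨p, rfl⟩ : ∃ p, q = p + 1 := ⟨q - 1, by omega⟩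
      rw [Nat.add_sub_cancel] at ih ⊢
      rw [sum_range_succ]
      have h1 := hb N
      have h2 : p * (b N * (p + 1) ^ (N + 1)) ≤ p * c := Nat.mul_le_mul_left _ h1
      have h3 := Nat.mul_le_mul_left (p + 1) ih
      have e1 : p * (∑ x ∈ range N, b x + b N) * (p + 1) ^ (N + 1) =
          (p + 1) * (p * (∑ x ∈ range N, b x) * (p + 1) ^ N) +
            p * (b N * (p + 1) ^ (N + 1)) := by ring
      have e2 : c * (p + 1) ^ (N + 1) = (p + 1) * (c * (p + 1) ^ N) := by ring
      rw [e1, e2]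
      have e3 : (p + 1) * (p * (∑ x ∈ range N, b x) * (p + 1) ^ N + c) =
          (p + 1) * (p * (∑ x ∈ range N, b x) * (p + 1) ^ N) + (p * c + c) := by ring
      rw [e3] at h3
      omega
  have hpos : 0 < q ^ N := by positivity
  have h1 : ((q - 1) * ∑ t ∈ range N, b t) * q ^ N ≤ c * q ^ N := by omega
  exact Nat.le_of_mul_le_mul_right h1 hpos

lemma sq_le (n : ℕ) (hn : 8 ≤ n) : (n + 1) ^ 2 ≤ 2 ^ (n - 1) := by
  have h : ∀ k : ℕ, (k + 9) ^ 2 ≤ 2 ^ (k + 7) := by
    intro k
    induction k with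
    | zero => norm_num
    | succ k ih =>
      have h2 : (k + 1 + 9) ^ 2 + (k ^ 2 + 16 * k + 62) = 2 * (k + 9) ^ 2 := by ring
      rw [show k + 1 + 7 = (k + 7) + 1 by ring, pow_succ 2]
      omega
  have := h (n - 8)
  rw [show n - 8 + 9 = n + 1 by omega, show n - 8 + 7 = n - 1 by omega] at this
  exact this

/-- The number of stable subfamilies, transported to finite sets. -/
lemma stable_count {n : ℕ} (M : Matroid (Fin n)) (r : ℕ) (hrank : M.eRank = r)
    (K : Finset (Finset (Fin n))) (hK : ∀ X ∈ K, X.card = r) (K' : Set (Set (Fin n)))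
    (hKK : ∀ X : Finset (Fin n), X ∈ K ↔ (X : Set (Fin n)) ∈ K') :
    ∃ 𝒮 : Finset (Finset (Finset (Fin n))), (∀ S ∈ 𝒮, S ⊆ K ∧ Stable S) ∧
      {S | IsStableIn M K' S}.ncard ≤ 𝒮.card := by
  classical
  refine ⟨K.powerset.filter Stable, ?_, ?_⟩
  · intro S hS
    rw [mem_filter, mem_powerset] at hS
    exact hS
  · rw [← Set.ncard_coe_finset]
    apply Set.ncard_le_ncard_of_injOn
      (fun S : Set (Set (Fin n)) => (univ : Finset (Finset (Fin n))).filter
        (fun X : Finset (Fin n) => (X : Set (Fin n)) ∈ S))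
    · rintro S ⟨hSK, hSst⟩
      rw [mem_coe, mem_filter, mem_powerset]
      constructor
      · intro X hX
        rw [mem_filter] at hX
        exact (hKK X).2 (hSK hX.2)
      · intro X hX Y hY hne
        rw [mem_filter] at hX hY
        have hXK := hK X ((hKK X).2 (hSK hX.2))
        have hYK := hK Y ((hKK Y).2 (hSK hY.2))
        have h1 := hSst X hX.2 Y hY.2 (fun h => hne (Finset.coe_injective h))
        rw [← coe_inter, Set.encard_coe_eq_coe_finsetCard, hrank] at h1
        have h2 : (X ∩ Y).card + 1 ≠ r := by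
          intro h
          apply h1
          exact_mod_cast h
        have h3 := card_sdiff_add_card_inter X Y
        have h4 : (X \ Y).card ≠ 0 := by
          intro h
          rw [card_eq_zero, sdiff_eq_empty_iff_subset] at h
          exact hne (eq_of_subset_of_card_le h (by omega))
        omega
    · intro S _ T _ h
      ext X
      have h1 := Finset.ext_iff.1 h (Set.toFinite X).toFinset
      simp only [mem_filter, mem_univ, true_and, Set.Finite.coe_toFinset] at h1
      exact h1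

lemma cutOut_ncard {n : ℕ} (K : Finset (Finset (Fin n))) (K' : Set (Set (Fin n)))
    (hKK : ∀ X : Finset (Fin n), X ∈ K ↔ (X : Set (Fin n)) ∈ K') : K'.ncard ≤ K.card := by
  classical
  rw [← Set.ncard_coe_finset]
  apply Set.ncard_le_ncard_of_injOn (fun X => (Set.toFinite X).toFinset)
  · intro X hX
    rw [mem_coe, hKK, Set.Finite.coe_toFinset]
    exact hX
  · intro X _ Y _ h
    rw [← Set.Finite.coe_toFinset (Set.toFinite X), ← Set.Finite.coe_toFinset (Set.toFinite Y)]
    exact congrArg (fun Z : Finset (Fin n) => (Z : Set (Fin n))) h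

theorem result (n : ℕ) (hn : 8 ≤ n) (𝒞 : Set (Matroid (Fin n))) (hE : ∀ M ∈ 𝒞, M.E = Set.univ)
    (hup : ∀ M ∈ 𝒞, ∀ M' : Matroid (Fin n), M'.E = Set.univ →
      (∀ B, M.IsBase B → M'.IsBase B) → M' ∈ 𝒞) :
    2 ^ n * {M ∈ 𝒞 | ¬ SmallComponents M}.ncard ≤ 𝒞.ncard := by
  classical
  have hfin := finite_mats 𝒞 hE
  -- the members violating the bound with a family of `t + 1` sets
  set Bad : ℕ → Set (Matroid (Fin n)) := fun t => {M ∈ 𝒞 | ∃ 𝓕 : Finset (Set (Fin n)),
    𝓕.card = t + 1 ∧ IsComponentUnion M (cutOut M 𝓕) ∧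
      (2 ^ (3 * n * (t + 1)) ≤ {S | IsStableIn M (cutOut M 𝓕) S}.ncard ∨
        3 * n ^ 2 * (t + 1) ≤ (cutOut M 𝓕).ncard)} with hBad
  have hstep : ∀ t, (Bad t).ncard * (2 ^ (n + 1)) ^ (t + 1) ≤ 𝒞.ncard := by
    intro t
    set I : Finset (ℕ × (Fin (t + 1) → Finset (Fin n) × Fin (n + 1))) :=
      ((range (n + 1)) ×ˢ univ).filter (fun p =>
        ∃ 𝒮 : Finset (Finset (Finset (Fin n))), (∀ S ∈ 𝒮, S ⊆ KU p.1 p.2 ∧ Stable S) ∧
          2 ^ (3 * n * (t + 1)) ≤ 𝒮.card) with hI
    have h1 : (Bad t).ncard * 2 ^ (3 * n * (t + 1)) ≤ I.card * 𝒞.ncard := by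
      apply union_bound 𝒞 hE hup I (fun p => p.1) (fun p => KU p.1 p.2)
      · rintro ⟨r, f⟩ hp
        rw [hI, mem_filter] at hp
        exact ⟨fun X hX => (mem_KU.1 hX).1, hp.2⟩
      · rintro M ⟨hMC, 𝓕, hcard, hcomp, hor⟩
        refine ⟨hMC, ?_⟩
        obtain ⟨B₀, hB₀⟩ := exists_bs M
        have hrank := eRank_eq hB₀
        have hr : ∀ X, Bs M X → X.card = B₀.card := fun X hX => card_bs hX hB₀
        have hle : B₀.card ≤ n := by simpa using card_le_univ B₀
        obtain ⟨f, hcl, hKK, _, _⟩ := bridgeS M (hE M hMC) B₀.card hr (t + 1) 𝓕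
          (by omega) hcomp (card_pos.1 (by omega))
        refine ⟨(B₀.card, f), ?_, hr, hcl⟩
        rw [hI, mem_filter, mem_product]
        refine ⟨⟨mem_range.2 (by omega), mem_univ _⟩, ?_⟩
        rcases hor with h | h
        · obtain ⟨𝒮, h𝒮, hc⟩ := stable_count M B₀.card hrank (KU B₀.card f)
            (fun X hX => (mem_KU.1 hX).1) _ hKK
          exact ⟨𝒮, h𝒮, h.trans hc⟩
        · obtain ⟨𝒮, h𝒮, hc⟩ := exists_stable_pow (by omega) B₀.card (KU B₀.card f)
            (fun X hX => (mem_KU.1 hX).1)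
          refine ⟨𝒮, h𝒮, le_trans (Nat.pow_le_pow_right (by norm_num) ?_) hc⟩
          rw [Nat.le_div_iff_mul_le (by omega)]
          refine le_trans (le_of_eq ?_) (h.trans (cutOut_ncard _ _ hKK))
          ring
    have hcardI : I.card ≤ (n + 1) * (2 ^ n * (n + 1)) ^ (t + 1) := by
      refine (card_filter_le _ _).trans (le_of_eq ?_)
      rw [card_product, card_range, card_univ, Fintype.card_fun, Fintype.card_prod,
        Fintype.card_finset, Fintype.card_fin, Fintype.card_fin, Fintype.card_fin]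
    have hsq : (n + 1) ^ 2 ≤ 2 ^ (n - 1) := sq_le n hn
    have hnum : (n + 1) * (2 ^ n * (n + 1)) ^ (t + 1) * (2 ^ (n + 1)) ^ (t + 1) ≤
        2 ^ (3 * n * (t + 1)) := by
      calc (n + 1) * (2 ^ n * (n + 1)) ^ (t + 1) * (2 ^ (n + 1)) ^ (t + 1)
          ≤ (n + 1) ^ (t + 1) * (2 ^ n * (n + 1)) ^ (t + 1) * (2 ^ (n + 1)) ^ (t + 1) := by
            apply Nat.mul_le_mul_right
            apply Nat.mul_le_mul_right
            calc n + 1 = (n + 1) ^ 1 := (pow_one _).symm
              _ ≤ (n + 1) ^ (t + 1) := Nat.pow_le_pow_right (by omega) (by omega)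
        _ = ((n + 1) ^ 2 * (2 ^ n * 2 ^ (n + 1))) ^ (t + 1) := by
            rw [← mul_pow, ← mul_pow]
            congr 1
            ring
        _ ≤ (2 ^ (n - 1) * (2 ^ n * 2 ^ (n + 1))) ^ (t + 1) :=
            Nat.pow_le_pow_left (Nat.mul_le_mul_right _ hsq) _
        _ = 2 ^ (3 * n * (t + 1)) := by
            rw [← pow_add, ← pow_add, ← pow_mul]
            congr 2
            omega
    have hW : 0 < (n + 1) * (2 ^ n * (n + 1)) ^ (t + 1) := by positivity
    have h3 : ((n + 1) * (2 ^ n * (n + 1)) ^ (t + 1)) *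
        ((Bad t).ncard * (2 ^ (n + 1)) ^ (t + 1)) ≤
        ((n + 1) * (2 ^ n * (n + 1)) ^ (t + 1)) * 𝒞.ncard := by
      calc ((n + 1) * (2 ^ n * (n + 1)) ^ (t + 1)) * ((Bad t).ncard * (2 ^ (n + 1)) ^ (t + 1))
          = (Bad t).ncard *
            ((n + 1) * (2 ^ n * (n + 1)) ^ (t + 1) * (2 ^ (n + 1)) ^ (t + 1)) := by ring
        _ ≤ (Bad t).ncard * 2 ^ (3 * n * (t + 1)) := Nat.mul_le_mul_left _ hnum
        _ ≤ I.card * 𝒞.ncard := h1
        _ ≤ _ := Nat.mul_le_mul_right _ hcardI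
    exact Nat.le_of_mul_le_mul_left h3 hW
  have hsub : {M ∈ 𝒞 | ¬ SmallComponents M} ⊆
      ⋃ t ∈ range (Fintype.card (Set (Fin n)) + 1), Bad t := by
    rintro M ⟨hMC, hM⟩
    unfold SmallComponents at hM
    push Not at hM
    obtain ⟨𝓕, hcomp, himp⟩ := hM
    rw [Set.mem_iUnion₂]
    have hpos : 0 < 𝓕.card := by
      rw [card_pos]
      by_contra hne
      rw [not_nonempty_iff_eq_empty] at hne
      subst hne
      have hK : cutOut M ∅ = ∅ := by
        apply Set.eq_empty_iff_forall_notMem.2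
        rintro X ⟨_, F, hF, _⟩
        exact absurd hF (notMem_empty F)
      rw [hK] at himp
      have h1 : {S | IsStableIn M ∅ S}.ncard ≤ 2 ^ (3 * n * (∅ : Finset (Set (Fin n))).card) := by
        have : {S | IsStableIn M ∅ S} ⊆ {∅} := by
          rintro S ⟨hS, _⟩
          exact Set.subset_empty_iff.1 hS
        refine (Set.ncard_le_ncard this (Set.finite_singleton _)).trans ?_
        rw [Set.ncard_singleton]
        simp
      have := himp h1
      rw [Set.ncard_empty] at this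
      omega
    obtain ⟨t, ht⟩ : ∃ t, 𝓕.card = t + 1 := ⟨𝓕.card - 1, by omega⟩
    have hle : 𝓕.card ≤ Fintype.card (Set (Fin n)) := card_le_univ 𝓕
    refine ⟨t, mem_range.2 (by omega), hMC, 𝓕, ht, hcomp, ?_⟩
    rw [ht] at himp
    by_cases h : {S | IsStableIn M (cutOut M 𝓕) S}.ncard ≤ 2 ^ (3 * n * (t + 1))
    · exact Or.inr (himp h).le
    · exact Or.inl (not_le.1 h).le
  have hfinU : (⋃ t ∈ range (Fintype.card (Set (Fin n)) + 1), Bad t).Finite := by
    apply hfin.subset
    intro M hM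
    rw [Set.mem_iUnion₂] at hM
    obtain ⟨t, _, ht⟩ := hM
    exact ht.1
  have hsum : {M ∈ 𝒞 | ¬ SmallComponents M}.ncard ≤
      ∑ t ∈ range (Fintype.card (Set (Fin n)) + 1), (Bad t).ncard :=
    (Set.ncard_le_ncard hsub hfinU).trans (set_ncard_biUnion_le _ _)
  have hgeom := geom_bound (2 ^ (n + 1)) 𝒞.ncard Nat.one_le_two_pow (fun t => (Bad t).ncard)
    hstep (Fintype.card (Set (Fin n)) + 1)
  have hq : 2 ^ n ≤ 2 ^ (n + 1) - 1 := by
    have : 1 ≤ 2 ^ n := Nat.one_le_two_pow
    rw [pow_succ]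
    omega
  calc 2 ^ n * {M ∈ 𝒞 | ¬ SmallComponents M}.ncard
      ≤ (2 ^ (n + 1) - 1) * ∑ t ∈ range (Fintype.card (Set (Fin n)) + 1), (Bad t).ncard :=
        Nat.mul_le_mul hq hsum
    _ ≤ 𝒞.ncard := hgeom

end Pool.Agent.Results.MP_6d0648_co.ComponentSize
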