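import Pool.Agent.Matroid6d.G.Final
import Pool.Agent.Matroid6d.Num3

/-!
For all but a `2^(-n)` fraction of the matroids on `n` elements (and of the members of every class
of matroids that is closed under adding bases and contains the sparse paving matroids of rank
`⌊n/2⌋`, or has all its ranks in `[n/8, 7n/8]`): if `K` is a union of connected components of the
graph on the non-bases and no member of `K` is a circuit-hyperplane, then `K` has at most
`32 n ^ 2` times as many members as there are circuits with `r - 1` elements inside and cocircuits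
with `n - r - 1` elements outside members of `K`.
-/

set_option autoImplicit false

namespace Pool.Agent.Results.MP_6d0648_co.LightCover

open Pool.Agent.Matroid6d Finset

/-- The circuits of `M` with `r(M) - 1` elements that are contained in a member of `K`. -/
def lightCircuits {n : ℕ} (M : Matroid (Fin n)) (K : Set (Set (Fin n))) : Set (Set (Fin n)) :=
  {C | M.IsCircuit C ∧ C.encard + 1 = M.eRank ∧ ∃ X ∈ K, C ⊆ X}

/-- The cocircuits of `M` with `n - r(M) - 1` elements that are disjoint from a member of `K`: the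
complements of the hyperplanes with `r(M) + 1` elements that contain a member of `K`. -/
def lightCocircuits {n : ℕ} (M : Matroid (Fin n)) (K : Set (Set (Fin n))) : Set (Set (Fin n)) :=
  {D | M.IsCocircuit D ∧ D.encard + M.eRank + 1 = n ∧ ∃ X ∈ K, Disjoint D X}

/-- Every union `K` of connected components of the graph on the non-bases of `M` that contains no
circuit-hyperplane is controlled by its light circuits and cocircuits. -/
def Controlled {n : ℕ} (M : Matroid (Fin n)) : Prop :=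
  ∀ K : Set (Set (Fin n)), IsComponentUnion M K → (∀ X ∈ K, ¬ IsCH M X) →
    K.ncard ≤ 32 * n ^ 2 * ((lightCircuits M K).ncard + (lightCocircuits M K).ncard)

theorem result : ∃ n₀ : ℕ, ∀ n : ℕ, n₀ ≤ n →
    ∀ 𝒞 : Set (Matroid (Fin n)), (∀ M ∈ 𝒞, M.E = Set.univ) →
    (∀ M ∈ 𝒞, ∀ M' : Matroid (Fin n), M'.E = Set.univ →
      (∀ B, M.IsBase B → M'.IsBase B) → M' ∈ 𝒞) →
    ((∀ M ∈ 𝒞, (n : ℕ∞) ≤ 8 * M.eRank ∧ 8 * M.eRank ≤ 7 * n) ∨
      (∀ M : Matroid (Fin n), M.E = Set.univ → M.eRank = (n / 2 : ℕ) → SparsePaving M →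
        M ∈ 𝒞)) →
    2 ^ n * {M ∈ 𝒞 | ¬ Controlled M}.ncard ≤ 𝒞.ncard := by
  classical
  obtain ⟨n₁, hn₁⟩ := num3
  obtain ⟨n₂, hn₂⟩ := short_coc (2 ^ 18)
  obtain ⟨n₃, hn₃⟩ := short_cir (2 ^ 18)
  refine ⟨n₁ + n₂ + n₃ + 200, fun n hn 𝒞 hE hup hor => ?_⟩
  obtain ⟨L, m, β, p1, p2, p3, p4, p5, p6, p7, p8, p9, p10⟩ := hn₁ n (by omega)
  have hfin := finite_mats 𝒞 hE
  set S₁ := {M ∈ 𝒞 | MidR M ∧ ∃ D : Set (Fin n), M.IsCocircuit D ∧
    D.encard ≤ (2 ^ 18 : ℕ)} with hS₁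
  set S₂ := {M ∈ 𝒞 | MidR M ∧ ∃ C : Set (Fin n), M.IsCircuit C ∧
    C.encard ≤ (2 ^ 18 : ℕ)} with hS₂
  set A₁ := {M ∈ 𝒞 | MidR M ∧ (∀ C : Set (Fin n), M.IsCircuit C → 2 ^ 18 < C.encard) ∧
    (∀ D : Set (Fin n), M.IsCocircuit D → 2 ^ 18 < D.encard) ∧ ¬ Controlled M} with hA₁
  set A₂ := {M ∈ 𝒞 | ¬ MidR M} with hA₂
  have hs₁ : 2 ^ (n + 3) * S₁.ncard ≤ 𝒞.ncard := hn₂ n (by omega) 𝒞 hE hup
  have hs₂ : 2 ^ (n + 3) * S₂.ncard ≤ 𝒞.ncard := hn₃ n (by omega) 𝒞 hE hup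
  have hext : 2 ^ (n + 1) * A₂.ncard ≤ 𝒞.ncard := by
    rcases hor with h | h
    · have : A₂ = ∅ := by
        apply Set.eq_empty_iff_forall_notMem.2
        rintro M ⟨hM, hr⟩
        exact hr (h M hM)
      rw [this, Set.ncard_empty]
      omega
    · exact extR2 (by omega) 𝒞 hE h
  have h32 : 32 * (n + 1) ≤ 2 ^ n := by
    obtain ⟨k, rfl⟩ : ∃ k, n = k + 11 := ⟨n - 11, by omega⟩
    have h1 : k < 2 ^ k := Nat.lt_two_pow_self
    rw [pow_add]
    omega
  have hmid : 2 ^ (n + 2) * A₁.ncard ≤ 𝒞.ncard := by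
    apply final_bound4 𝒞 hE hup (fun r => KK n r (2 ^ 18 + 1)) ?_ ?_ h32
    · rintro M ⟨hMC, hM, hc1, hc2, hc⟩
      refine ⟨hMC, hM, ?_⟩
      unfold Controlled at hc
      push Not at hc
      obtain ⟨K, hK, hCH, hlt⟩ := hc
      refine ⟨Kf K, ?_, closed_Kf hK⟩
      rw [mem_KK]
      refine ⟨Bs M, ctx_Kf (hE M hMC) hM hK hCH _ ?_ ?_, ?_⟩
      · intro C hC _
        have := Order.add_one_le_of_lt (hc1 C hC)
        exact_mod_cast this
      · intro D hD _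
        have := Order.add_one_le_of_lt (hc2 D hD)
        exact_mod_cast this
      · rw [← card_Kf]
        refine lt_of_le_of_lt (Nat.mul_le_mul_left _ (card_Lset_le (hE M hMC) hK)) ?_
        exact hlt
    · intro r K hK X hX
      obtain ⟨P, hctx, _⟩ := mem_KK.1 hK
      exact hctx.hKr X hX
    · intro r hr1 hr2
      exact ksum r (2 ^ 18 + 1) L m β le_rfl p1 p2 p3 (by omega) (by omega) p5 hr1 hr2 p6 p7 p8
        p9 p10
  have hsub : {M ∈ 𝒞 | ¬ Controlled M} ⊆ (A₁ ∪ A₂) ∪ (S₁ ∪ S₂) := by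
    rintro M ⟨hM, hc⟩
    by_cases hr : MidR M
    · by_cases hD : ∃ D : Set (Fin n), M.IsCocircuit D ∧ D.encard ≤ (2 ^ 18 : ℕ)
      · exact Or.inr (Or.inl ⟨hM, hr, hD⟩)
      · by_cases hC : ∃ C : Set (Fin n), M.IsCircuit C ∧ C.encard ≤ (2 ^ 18 : ℕ)
        · exact Or.inr (Or.inr ⟨hM, hr, hC⟩)
        · push Not at hD hC
          refine Or.inl (Or.inl ⟨hM, hr, fun C h => ?_, fun D h => ?_, hc⟩)
          · exact_mod_cast hC C h
          · exact_mod_cast hD D h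
    · exact Or.inl (Or.inr ⟨hM, hr⟩)
  have hfinU : ((A₁ ∪ A₂) ∪ (S₁ ∪ S₂)).Finite :=
    ((hfin.subset (fun M hM => hM.1)).union (hfin.subset (fun M hM => hM.1))).union
      ((hfin.subset (fun M hM => hM.1)).union (hfin.subset (fun M hM => hM.1)))
  have hle : {M ∈ 𝒞 | ¬ Controlled M}.ncard ≤ (A₁.ncard + A₂.ncard) + (S₁.ncard + S₂.ncard) :=
    ((Set.ncard_le_ncard hsub hfinU).trans (Set.ncard_union_le _ _)).trans
      (Nat.add_le_add (Set.ncard_union_le _ _) (Set.ncard_union_le _ _))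
  have h8 : 8 * (2 ^ n * {M ∈ 𝒞 | ¬ Controlled M}.ncard) ≤ 8 * 𝒞.ncard := by
    have e1 : 2 ^ (n + 1) = 2 * 2 ^ n := by rw [pow_succ]; ring
    have e2 : 2 ^ (n + 2) = 4 * 2 ^ n := by rw [pow_add]; ring
    have e3 : 2 ^ (n + 3) = 8 * 2 ^ n := by rw [pow_add]; ring
    rw [e1] at hext
    rw [e2] at hmid
    rw [e3] at hs₁ hs₂
    calc 8 * (2 ^ n * {M ∈ 𝒞 | ¬ Controlled M}.ncard)
        ≤ 8 * (2 ^ n * ((A₁.ncard + A₂.ncard) + (S₁.ncard + S₂.ncard))) :=
          Nat.mul_le_mul_left _ (Nat.mul_le_mul_left _ hle)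
      _ = 2 * (4 * 2 ^ n * A₁.ncard) + 4 * (2 * 2 ^ n * A₂.ncard) +
          (8 * 2 ^ n * S₁.ncard + 8 * 2 ^ n * S₂.ncard) := by ring
      _ ≤ 2 * 𝒞.ncard + 4 * 𝒞.ncard + (𝒞.ncard + 𝒞.ncard) :=
          Nat.add_le_add (Nat.add_le_add (Nat.mul_le_mul_left _ hmid)
            (Nat.mul_le_mul_left _ hext)) (Nat.add_le_add hs₁ hs₂)
      _ = 8 * 𝒞.ncard := by ring
  exact Nat.le_of_mul_le_mul_left h8 (by norm_num)

end Pool.Agent.Results.MP_6d0648_co.LightCover
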