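import Pool.Agent.Matroid6d.BridgeD
import Pool.Agent.Matroid6d.NumericD
import Pool.Agent.Matroid6d.ExtR

/-!
For every `s ≥ 4`, for all but a `2^(-n)` fraction of the matroids on `n` elements (and of the
members of every class of matroids that is closed under adding bases and contains the sparse
paving matroids of rank `⌊n/2⌋`): a union of connected components of the graph on the non-bases
that is cut out by a family of sets one of which has nullity plus corank at least `s` needs at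
least `n^(s-3) / C` sets.
-/

set_option autoImplicit false

namespace Pool.Agent.Results.MP_6d0648_co.ManyFlats

open Pool.Agent.Matroid6d Finset

/-- Whenever a union of connected components of the graph on the non-bases of `M` is cut out by a
family `𝓕` of subsets of the ground set and some dependent, non-spanning member `F` of `𝓕` has
nullity plus corank at least `s`, that is, `(|F| - r(F)) + (r(M) - r(F)) ≥ s`, the family has at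
least `n ^ (s - 3) / C` members. -/
def ManySets (s C : ℕ) {n : ℕ} (M : Matroid (Fin n)) : Prop :=
  ∀ 𝓕 : Finset (Set (Fin n)), IsComponentUnion M (cutOut M 𝓕) →
    (∃ F ∈ 𝓕, M.Dep F ∧ ¬ M.Spanning F ∧ 2 * M.eRk F + s ≤ F.encard + M.eRank) →
    n ^ (s - 3) ≤ C * 𝓕.card

lemma heavy_iff {n : ℕ} (M : Matroid (Fin n)) (F : Set (Fin n)) (s : ℕ) :
    ¬ (F.encard + M.eRank ≤ 2 * M.eRk F + s) ↔
      2 * M.eRk F + ((s + 1 : ℕ) : ℕ∞) ≤ F.encard + M.eRank := by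
  obtain ⟨B₀, hB₀⟩ := exists_bs M
  have h1 : M.eRank = (B₀.card : ℕ∞) := eRank_eq hB₀
  have h2 : F.encard = (((Set.toFinite F).toFinset.card : ℕ) : ℕ∞) := by
    rw [← Set.encard_coe_eq_coe_finsetCard, Set.Finite.coe_toFinset]
  have h3 : M.eRk F ≤ (B₀.card : ℕ∞) := h1 ▸ M.eRk_le_eRank F
  obtain ⟨k, hk⟩ := ENat.ne_top_iff_exists.1 (ne_top_of_le_ne_top (ENat.natCast_ne_top _) h3)
  rw [h1, h2, ← hk]
  have : ¬ ((Set.toFinite F).toFinset.card + B₀.card ≤ 2 * k + s) ↔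
      2 * k + (s + 1) ≤ (Set.toFinite F).toFinset.card + B₀.card := by omega
  exact_mod_cast this

/-- A set above the threshold. -/
lemma caseB (e : ℕ) : ∃ C n₀ : ℕ, 1 ≤ C ∧ ∀ n, n₀ ≤ n → ∀ T : ℕ, C * T ≤ n ^ e →
    ∀ 𝒞 : Set (Matroid (Fin n)), (∀ M ∈ 𝒞, M.E = Set.univ) →
    (∀ M ∈ 𝒞, ∀ M' : Matroid (Fin n), M'.E = Set.univ →
      (∀ B, M.IsBase B → M'.IsBase B) → M' ∈ 𝒞) →
    2 ^ (n + 2) * {M ∈ 𝒞 | MidRank M ∧ ∃ 𝓕 : Finset (Set (Fin n)), 𝓕.card ≤ T + 1 ∧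
      IsComponentUnion M (cutOut M 𝓕) ∧ ∃ F ∈ 𝓕, M.Dep F ∧ ¬ M.Spanning F ∧
        ¬ (F.encard + M.eRank ≤ 2 * M.eRk F + ((e + 3 : ℕ) : ℕ∞))}.ncard ≤ 𝒞.ncard := by
  classical
  obtain ⟨C, n₀, hC, hnum⟩ := numB e
  refine ⟨C, n₀ + 24 * (e + 4), hC, ?_⟩
  intro n hn T hT 𝒞 hE hup
  set Bad := {M ∈ 𝒞 | MidRank M ∧ ∃ 𝓕 : Finset (Set (Fin n)), 𝓕.card ≤ T + 1 ∧
      IsComponentUnion M (cutOut M 𝓕) ∧ ∃ F ∈ 𝓕, M.Dep F ∧ ¬ M.Spanning F ∧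
        ¬ (F.encard + M.eRank ≤ 2 * M.eRk F + ((e + 3 : ℕ) : ℕ∞))} with hBadDef
  obtain ⟨d, hd⟩ : ∃ d, d = e + 1 + 1 := ⟨_, rfl⟩
  have h2 := hnum n ((Nat.le_add_right _ _).trans hn) T hT
  rw [← hd] at h2
  obtain ⟨m, hm⟩ : ∃ m, m = n / (24 * d) := ⟨_, rfl⟩
  rw [← hm, show e + 1 = d - 1 by omega] at h2
  have hm24 : 24 * (d * m) ≤ n := by
    rw [hm, ← mul_assoc]
    exact Nat.mul_div_le n (24 * d)
  obtain ⟨k, hk⟩ : ∃ k, k = m ^ (d - 1) / (2 * d) := ⟨_, rfl⟩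
  rw [← hk] at h2
  have hk2 : 2 * (k * (d * m)) ≤ m ^ d := by
    have h3 : 2 * d * k ≤ m ^ (d - 1) := by rw [hk]; exact Nat.mul_div_le _ _
    calc 2 * (k * (d * m)) = 2 * d * k * m := by ring
      _ ≤ m ^ (d - 1) * m := Nat.mul_le_mul_right _ h3
      _ = m ^ d := by rw [← pow_succ, show d - 1 + 1 = d by omega]
  set I : Finset (ℕ × (Fin (T + 1) → Finset (Fin n) × Fin (n + 1))) :=
    ((range (n + 1)) ×ˢ univ).filter (fun p => 2 * (d * m) + d + 1 ≤ p.1 ∧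
      p.1 + 2 * (d * m) + d + 1 ≤ n ∧ ∃ i, HeavyS n p.1 (e + 3 + 1) (p.2 i)) with hI
  have h1 : Bad.ncard * (d * m) ^ k ≤ I.card * 𝒞.ncard := by
    apply union_bound 𝒞 hE hup I (fun p => p.1) (fun p => KU p.1 p.2)
    · rintro ⟨r, f⟩ hp
      rw [hI, mem_filter] at hp
      obtain ⟨_, h1, h2, i, hi1, hi2, hi3, hi4⟩ := hp
      refine ⟨fun X hX => (mem_KU.1 hX).1, ?_⟩
      obtain ⟨𝒮, h𝒮, hcard⟩ := stable_KF r (f i).2 m d k (f i).1 (by omega) hi1 hi2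
        (by dsimp only at hi3; omega) hi4 h1 h2 hk2
      have hKi : KF r (f i).1 (f i).2 ⊆ KU r f := subset_biUnion_of_mem
        (fun i => KF r (f i).1 (f i).2) (mem_univ i)
      exact ⟨𝒮, fun S hS => ⟨(h𝒮 S hS).1.trans hKi, (h𝒮 S hS).2⟩, hcard⟩
    · rintro M ⟨hMC, hmid, 𝓕, hcard, hcomp, F, hF, hdep, hsp, hbig⟩
      refine ⟨hMC, ?_⟩
      obtain ⟨B₀, hB₀⟩ := exists_bs M
      obtain ⟨hr1, hr2⟩ := midRank_card hmid hB₀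
      have hr : ∀ X, Bs M X → X.card = B₀.card := fun X hX => card_bs hX hB₀
      obtain ⟨f, hcl, _, _, hheavy⟩ := bridgeS M (hE M hMC) B₀.card hr (T + 1) 𝓕
        hcard hcomp ⟨F, hF⟩
      refine ⟨(B₀.card, f), ?_, hr, hcl⟩
      rw [hI, mem_filter, mem_product]
      exact ⟨⟨mem_range.2 (by omega), mem_univ _⟩, by omega, by omega,
        hheavy F hF (e + 3) hdep hsp hbig⟩
  have hcardI : I.card ≤ (n + 1) * (2 ^ n * (n + 1)) ^ (T + 1) := by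
    refine (card_filter_le _ _).trans (le_of_eq ?_)
    rw [card_product, card_range, card_univ, Fintype.card_fun, Fintype.card_prod,
      Fintype.card_finset, Fintype.card_fin, Fintype.card_fin, Fintype.card_fin]
  have hW : 0 < (n + 1) * (2 ^ n * (n + 1)) ^ (T + 1) := by positivity
  have h3 : ((n + 1) * (2 ^ n * (n + 1)) ^ (T + 1)) * (2 ^ (n + 2) * Bad.ncard) ≤
      ((n + 1) * (2 ^ n * (n + 1)) ^ (T + 1)) * 𝒞.ncard := by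
    calc ((n + 1) * (2 ^ n * (n + 1)) ^ (T + 1)) * (2 ^ (n + 2) * Bad.ncard)
        = Bad.ncard * (2 ^ (n + 2) * ((n + 1) * (2 ^ n * (n + 1)) ^ (T + 1))) := by ring
      _ ≤ Bad.ncard * (d * m) ^ k := Nat.mul_le_mul_left _ h2
      _ ≤ I.card * 𝒞.ncard := h1
      _ ≤ _ := Nat.mul_le_mul_right _ hcardI
  exact Nat.le_of_mul_le_mul_left h3 hW

/-- A set at the threshold, and none above. -/
lemma caseA (e : ℕ) (he : 1 ≤ e) : ∃ C n₀ : ℕ, 1 ≤ C ∧ ∀ n, n₀ ≤ n → ∀ T : ℕ, C * T ≤ n ^ e →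
    ∀ 𝒞 : Set (Matroid (Fin n)), (∀ M ∈ 𝒞, M.E = Set.univ) →
    (∀ M ∈ 𝒞, ∀ M' : Matroid (Fin n), M'.E = Set.univ →
      (∀ B, M.IsBase B → M'.IsBase B) → M' ∈ 𝒞) →
    2 ^ (n + 2) * {M ∈ 𝒞 | MidRank M ∧ ∃ 𝓕 : Finset (Set (Fin n)), 𝓕.card ≤ T + 1 ∧
      IsComponentUnion M (cutOut M 𝓕) ∧ (∃ F ∈ 𝓕, M.Dep F ∧ ¬ M.Spanning F ∧
        ¬ (F.encard + M.eRank ≤ 2 * M.eRk F + ((e + 2 : ℕ) : ℕ∞))) ∧
      (∀ F ∈ 𝓕, M.Dep F → ¬ M.Spanning F →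
        F.encard + M.eRank ≤ 2 * M.eRk F + ((e + 3 : ℕ) : ℕ∞))}.ncard ≤ 𝒞.ncard := by
  classical
  obtain ⟨C, n₀, hC, hnum⟩ := numA e he (2 * (e + 2 + 1) + 1)
  refine ⟨C, n₀ + 24 * (e + 4), hC, ?_⟩
  intro n hn T hT 𝒞 hE hup
  set Bad := {M ∈ 𝒞 | MidRank M ∧ ∃ 𝓕 : Finset (Set (Fin n)), 𝓕.card ≤ T + 1 ∧
      IsComponentUnion M (cutOut M 𝓕) ∧ (∃ F ∈ 𝓕, M.Dep F ∧ ¬ M.Spanning F ∧
        ¬ (F.encard + M.eRank ≤ 2 * M.eRk F + ((e + 2 : ℕ) : ℕ∞))) ∧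
      (∀ F ∈ 𝓕, M.Dep F → ¬ M.Spanning F →
        F.encard + M.eRank ≤ 2 * M.eRk F + ((e + 3 : ℕ) : ℕ∞))} with hBadDef
  obtain ⟨d, hd⟩ : ∃ d, d = e + 1 := ⟨_, rfl⟩
  have h2 := hnum n ((Nat.le_add_right _ _).trans hn) T hT
  rw [← hd] at h2
  obtain ⟨m, hm⟩ : ∃ m, m = n / (24 * d) := ⟨_, rfl⟩
  rw [← hm] at h2
  have hm24 : 24 * (d * m) ≤ n := by
    rw [hm, ← mul_assoc]
    exact Nat.mul_div_le n (24 * d)
  obtain ⟨k, hk⟩ : ∃ k, k = m ^ e / (2 * d) := ⟨_, rfl⟩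
  rw [← hk] at h2
  have hk2 : 2 * (k * (d * m)) ≤ m ^ d := by
    have h3 : 2 * d * k ≤ m ^ e := by rw [hk]; exact Nat.mul_div_le _ _
    calc 2 * (k * (d * m)) = 2 * d * k * m := by ring
      _ ≤ m ^ e * m := Nat.mul_le_mul_right _ h3
      _ = m ^ d := by rw [← pow_succ, hd]
  set I : Finset (ℕ × (Fin (T + 1) → Finset (Fin n) × Fin (n + 1))) :=
    ((range (n + 1)) ×ˢ chains (CloseC (2 * (e + 2 + 1))) (T + 1)).filter
      (fun p => 2 * (d * m) + d + 1 ≤ p.1 ∧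
      p.1 + 2 * (d * m) + d + 1 ≤ n ∧ ∃ i, HeavyS n p.1 (e + 2 + 1) (p.2 i)) with hI
  have h1 : Bad.ncard * (d * m) ^ k ≤ I.card * 𝒞.ncard := by
    apply union_bound 𝒞 hE hup I (fun p => p.1) (fun p => KU p.1 p.2)
    · rintro ⟨r, f⟩ hp
      rw [hI, mem_filter] at hp
      obtain ⟨_, h1, h2, i, hi1, hi2, hi3, hi4⟩ := hp
      refine ⟨fun X hX => (mem_KU.1 hX).1, ?_⟩
      obtain ⟨𝒮, h𝒮, hcard⟩ := stable_KF r (f i).2 m d k (f i).1 (by omega) hi1 hi2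
        (by dsimp only at hi3; omega) hi4 h1 h2 hk2
      have hKi : KF r (f i).1 (f i).2 ⊆ KU r f := subset_biUnion_of_mem
        (fun i => KF r (f i).1 (f i).2) (mem_univ i)
      exact ⟨𝒮, fun S hS => ⟨(h𝒮 S hS).1.trans hKi, (h𝒮 S hS).2⟩, hcard⟩
    · rintro M ⟨hMC, hmid, 𝓕, hcard, hcomp, ⟨F, hF, hdep, hsp, hbig⟩, hall⟩
      refine ⟨hMC, ?_⟩
      obtain ⟨B₀, hB₀⟩ := exists_bs M
      obtain ⟨hr1, hr2⟩ := midRank_card hmid hB₀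
      have hr : ∀ X, Bs M X → X.card = B₀.card := fun X hX => card_bs hX hB₀
      obtain ⟨f, hch, hcl, hheavy⟩ := bridge_chainC M (hE M hMC) B₀.card hr T (e + 2) 𝓕
        hcard hcomp F hF hdep hsp hbig hall
      refine ⟨(B₀.card, f), ?_, hr, hcl⟩
      rw [hI, mem_filter, mem_product]
      exact ⟨⟨mem_range.2 (by omega), mem_chains.2 hch⟩, by omega, by omega, hheavy⟩
  have hcardI : I.card ≤ (n + 1) *
      (2 ^ n * (n + 1) * ((T + 1) * (n + 1) ^ (2 * (e + 2 + 1) + 1)) ^ T) := by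
    refine (card_filter_le _ _).trans ?_
    rw [card_product, card_range]
    apply Nat.mul_le_mul_left
    refine (card_chain_le (CloseC (2 * (e + 2 + 1))) ((n + 1) ^ (2 * (e + 2 + 1) + 1))
      (closeC_ball _) T).trans ?_
    rw [Fintype.card_prod, Fintype.card_finset, Fintype.card_fin, Fintype.card_fin]
  have hW : 0 < (n + 1) *
      (2 ^ n * (n + 1) * ((T + 1) * (n + 1) ^ (2 * (e + 2 + 1) + 1)) ^ T) := by positivity
  have h3 : ((n + 1) * (2 ^ n * (n + 1) * ((T + 1) * (n + 1) ^ (2 * (e + 2 + 1) + 1)) ^ T)) *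
      (2 ^ (n + 2) * Bad.ncard) ≤
      ((n + 1) * (2 ^ n * (n + 1) * ((T + 1) * (n + 1) ^ (2 * (e + 2 + 1) + 1)) ^ T)) *
        𝒞.ncard := by
    calc ((n + 1) * (2 ^ n * (n + 1) * ((T + 1) * (n + 1) ^ (2 * (e + 2 + 1) + 1)) ^ T)) *
          (2 ^ (n + 2) * Bad.ncard)
        = Bad.ncard * (2 ^ (n + 2) * ((n + 1) * (2 ^ n * (n + 1) *
          ((T + 1) * (n + 1) ^ (2 * (e + 2 + 1) + 1)) ^ T))) := by ring
      _ ≤ Bad.ncard * (d * m) ^ k := Nat.mul_le_mul_left _ h2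
      _ ≤ I.card * 𝒞.ncard := h1
      _ ≤ _ := Nat.mul_le_mul_right _ hcardI
  exact Nat.le_of_mul_le_mul_left h3 hW

theorem result (s : ℕ) (hs : 4 ≤ s) : ∃ C n₀ : ℕ, ∀ n : ℕ, n₀ ≤ n →
    ∀ 𝒞 : Set (Matroid (Fin n)), (∀ M ∈ 𝒞, M.E = Set.univ) →
    (∀ M ∈ 𝒞, ∀ M' : Matroid (Fin n), M'.E = Set.univ →
      (∀ B, M.IsBase B → M'.IsBase B) → M' ∈ 𝒞) →
    ((∀ M ∈ 𝒞, (n : ℕ∞) ≤ 8 * M.eRank ∧ 8 * M.eRank ≤ 7 * n) ∨
      (∀ M : Matroid (Fin n), M.E = Set.univ → M.eRank = (n / 2 : ℕ) → SparsePaving M →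
        M ∈ 𝒞)) →
    2 ^ n * {M ∈ 𝒞 | ¬ ManySets s C M}.ncard ≤ 𝒞.ncard := by
  classical
  obtain ⟨e, he⟩ : ∃ e, s = e + 3 := ⟨s - 3, by omega⟩
  obtain ⟨C₁, n₁, hC₁, hA⟩ := caseA e (by omega)
  obtain ⟨C₂, n₂, hC₂, hB⟩ := caseB e
  refine ⟨C₁ + C₂, n₁ + n₂ + 200, fun n hn 𝒞 hE hup hor => ?_⟩
  obtain ⟨T, hT⟩ : ∃ T, T = n ^ e / (C₁ + C₂) := ⟨_, rfl⟩
  have hT0 : (C₁ + C₂) * T ≤ n ^ e := by rw [hT]; exact Nat.mul_div_le _ _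
  have hT1 : C₁ * T ≤ n ^ e := (Nat.mul_le_mul_right T (Nat.le_add_right _ _)).trans hT0
  have hT2 : C₂ * T ≤ n ^ e := (Nat.mul_le_mul_right T (Nat.le_add_left _ _)).trans hT0
  have hI := hB n (by omega) T hT2 𝒞 hE hup
  have hII := hA n (by omega) T hT1 𝒞 hE hup
  have hfin := finite_mats 𝒞 hE
  set A₁ := {M ∈ 𝒞 | MidRank M ∧ ∃ 𝓕 : Finset (Set (Fin n)), 𝓕.card ≤ T + 1 ∧
      IsComponentUnion M (cutOut M 𝓕) ∧ ∃ F ∈ 𝓕, M.Dep F ∧ ¬ M.Spanning F ∧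
        ¬ (F.encard + M.eRank ≤ 2 * M.eRk F + ((e + 3 : ℕ) : ℕ∞))} with hA₁
  set A₂ := {M ∈ 𝒞 | MidRank M ∧ ∃ 𝓕 : Finset (Set (Fin n)), 𝓕.card ≤ T + 1 ∧
      IsComponentUnion M (cutOut M 𝓕) ∧ (∃ F ∈ 𝓕, M.Dep F ∧ ¬ M.Spanning F ∧
        ¬ (F.encard + M.eRank ≤ 2 * M.eRk F + ((e + 2 : ℕ) : ℕ∞))) ∧
      (∀ F ∈ 𝓕, M.Dep F → ¬ M.Spanning F →
        F.encard + M.eRank ≤ 2 * M.eRk F + ((e + 3 : ℕ) : ℕ∞))} with hA₂
  set A₃ := {M ∈ 𝒞 | ¬ MidRank M} with hA₃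
  have hext : 2 ^ (n + 1) * A₃.ncard ≤ 𝒞.ncard := by
    rcases hor with h | h
    · have : A₃ = ∅ := by
        apply Set.eq_empty_iff_forall_notMem.2
        rintro M ⟨hM, hr⟩
        exact hr (h M hM)
      rw [this, Set.ncard_empty]
      omega
    · exact extR (by omega) 𝒞 hE h
  have hsub : {M ∈ 𝒞 | ¬ ManySets s (C₁ + C₂) M} ⊆ A₁ ∪ A₂ ∪ A₃ := by
    rintro M ⟨hM, hL⟩
    by_cases hr : MidRank M
    · left
      unfold ManySets at hL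
      push Not at hL
      obtain ⟨𝓕, hcomp, ⟨F, hF, hdep, hsp, hbig⟩, hcard⟩ := hL
      rw [he, Nat.add_sub_cancel] at hcard
      have hcT : 𝓕.card ≤ T + 1 := by
        have : 𝓕.card ≤ T := by
          rw [hT, Nat.le_div_iff_mul_le (by omega), mul_comm]
          exact hcard.le
        omega
      have hbig' : ¬ (F.encard + M.eRank ≤ 2 * M.eRk F + ((e + 2 : ℕ) : ℕ∞)) := by
        rw [heavy_iff, show e + 2 + 1 = s by omega]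
        exact hbig
      by_cases hall : ∀ G ∈ 𝓕, M.Dep G → ¬ M.Spanning G →
          G.encard + M.eRank ≤ 2 * M.eRk G + ((e + 3 : ℕ) : ℕ∞)
      · exact Or.inr ⟨hM, hr, 𝓕, hcT, hcomp, ⟨F, hF, hdep, hsp, hbig'⟩, hall⟩
      · push Not at hall
        obtain ⟨G, hG, h1, h2, h3⟩ := hall
        exact Or.inl ⟨hM, hr, 𝓕, hcT, hcomp, G, hG, h1, h2, not_le.2 h3⟩
    · exact Or.inr ⟨hM, hr⟩
  have hfinU : (A₁ ∪ A₂ ∪ A₃).Finite := ((hfin.subset (fun M hM => hM.1)).union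
    (hfin.subset (fun M hM => hM.1))).union (hfin.subset (fun M hM => hM.1))
  have hle : {M ∈ 𝒞 | ¬ ManySets s (C₁ + C₂) M}.ncard ≤ A₁.ncard + A₂.ncard + A₃.ncard :=
    (Set.ncard_le_ncard hsub hfinU).trans ((Set.ncard_union_le _ _).trans
      (Nat.add_le_add_right (Set.ncard_union_le _ _) _))
  have h2 : 4 * (2 ^ n * {M ∈ 𝒞 | ¬ ManySets s (C₁ + C₂) M}.ncard) ≤ 4 * 𝒞.ncard := by
    have e2 : 2 ^ (n + 2) = 4 * 2 ^ n := by rw [pow_succ, pow_succ]; ring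
    have e1 : 2 ^ (n + 1) = 2 * 2 ^ n := by rw [pow_succ]; ring
    rw [e2] at hI hII
    rw [e1] at hext
    calc 4 * (2 ^ n * {M ∈ 𝒞 | ¬ ManySets s (C₁ + C₂) M}.ncard)
        ≤ 4 * (2 ^ n * (A₁.ncard + A₂.ncard + A₃.ncard)) :=
          Nat.mul_le_mul_left _ (Nat.mul_le_mul_left _ hle)
      _ = 4 * 2 ^ n * A₁.ncard + 4 * 2 ^ n * A₂.ncard + 2 * (2 * 2 ^ n * A₃.ncard) := by ring
      _ ≤ 𝒞.ncard + 𝒞.ncard + 2 * 𝒞.ncard :=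
          Nat.add_le_add (Nat.add_le_add hI hII) (Nat.mul_le_mul_left _ hext)
      _ = 4 * 𝒞.ncard := by ring
  exact Nat.le_of_mul_le_mul_left h2 (by norm_num)

end Pool.Agent.Results.MP_6d0648_co.ManyFlats
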