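import Pool.Agent.Matroid6d.WMid
import Pool.Agent.Matroid6d.WNum

/-!
The weighted form of the problem: every circuit-hyperplane is given the weight `κ` and every other
non-basis the weight `x`. If `x < 1 / 4` (and also if `x = 1` and `κ ≥ (4 + ε) ^ n`), sparse paving
matroids carry all but an exponentially small part of the weight of all matroids. For larger `x`,
all but an exponentially small part of the weight is carried by the sparse paving matroids and the
matroids with few other non-bases. The same holds in each rank close to `n / 2`, uniformly in `κ`.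
-/

set_option autoImplicit false

namespace Pool.Agent.Results.MP_6d0648_co.Weighted

open Pool.Agent.Matroid6d Finset

theorem result (lam μ κ₀ : ℝ) (hlam0 : 0 ≤ lam) (hlam : lam < μ ^ 2) (hμ : 0 < μ) (hμ1 : μ ≤ 1)
    (hκ₀ : 0 < κ₀) :
    ∃ θ δ : ℝ, 0 < θ ∧ θ < 1 ∧ 0 < δ ∧ ∃ n₀ : ℕ, ∀ n : ℕ, n₀ ≤ n → ∀ κ x : ℝ, 0 ≤ κ → 0 ≤ x →
      x ^ n ≤ lam ^ n * max 1 κ →
      (κ₀ ≤ κ →
        wt x κ {M : Matroid (Fin n) | ¬ SparsePaving M ∧ (2 * μ) ^ n ≤ (numOther M : ℝ)} ≤
          θ ^ n * wt x κ {M : Matroid (Fin n) | SparsePaving M}) ∧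
      ∀ r : ℕ, (1 - δ) * n ≤ 2 * r → 2 * r ≤ (1 + δ) * n →
        wt x κ {M : Matroid (Fin n) | M.eRank = r ∧ ¬ SparsePaving M ∧
            (2 * μ) ^ n ≤ (numOther M : ℝ)} ≤
          θ ^ n * wt x κ {M : Matroid (Fin n) | M.eRank = r ∧ SparsePaving M} := by
  classical
  -- the parameters
  set lam' := max lam (μ ^ 2 / 2) with hlam'
  have hμ2 : 0 < μ ^ 2 := by positivity
  have hμ21 : μ ^ 2 ≤ 1 := pow_le_one₀ hμ.le hμ1
  have p1 : 0 < lam' := lt_of_lt_of_le (by positivity) (le_max_right _ _)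
  have p2 : lam' < μ ^ 2 := max_lt hlam (by linarith)
  have p3 : lam ≤ lam' := le_max_left _ _
  set c := (lam' + μ ^ 2) / 2 with hc
  have p4 : lam' < c := by rw [hc]; linarith
  have p5 : c < μ ^ 2 := by rw [hc]; linarith
  have p6 : 0 < c := p1.trans p4
  have p7 : c < 1 := by linarith
  set l := -Real.log c with hl
  set σ := Real.log c - Real.log lam' with hσ
  have hl0 : 0 < l := by
    rw [hl]
    have := Real.log_neg p6 p7
    linarith
  have hσ0 : 0 < σ := by
    rw [hσ]
    have := Real.log_lt_log p1 p4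
    linarith
  have hexpl : Real.exp (-l) = c := by rw [hl, neg_neg, Real.exp_log p6]
  have hexpls : Real.exp (-(l + σ)) = lam' := by
    rw [hl, hσ, show -(-Real.log c + (Real.log c - Real.log lam')) = Real.log lam' by ring,
      Real.exp_log p1]
  have hρ : 2 * Real.exp (-(l / 2)) < 2 * μ := by
    have h1 : Real.exp (-(l / 2)) ^ 2 < μ ^ 2 := by
      rw [← Real.exp_nat_mul, show ((2 : ℕ) : ℝ) * (-(l / 2)) = -l by push_cast; ring, hexpl]
      exact p5
    have h2 := lt_of_pow_lt_pow_left₀ 2 hμ.le h1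
    linarith
  obtain ⟨δ, K, hδ0, hδ1, hK, n₁, hn₁⟩ := mid_num l σ (2 * μ) hl0 hσ0 hρ
  obtain ⟨n₂, hn₂⟩ := ext_num δ κ₀ hδ0 hκ₀
  set e := Real.exp (-(σ / 16)) with he
  have he0 : 0 < e := Real.exp_pos _
  have he1 : e < 1 := Real.exp_lt_one_iff.2 (by linarith)
  set q := max e (1 / 2) with hq
  have hq0 : 0 < q := lt_of_lt_of_le he0 (le_max_left _ _)
  have hq1 : q < 1 := max_lt he1 (by norm_num)
  set θ := (1 + q) / 2 with hθ
  have hθ0 : 0 < θ := by rw [hθ]; linarith
  have hqθ : q < θ := by rw [hθ]; linarith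
  obtain ⟨n₃, hn₃⟩ := ev_small 0 (q / θ) 4 1 (by positivity) (by rw [div_lt_one hθ0]; exact hqθ)
    (by norm_num) one_pos
  refine ⟨θ, δ, hθ0, by rw [hθ]; linarith, hδ0, max (max n₁ n₂) (max n₃ 2), ?_⟩
  intro n hn κ x hκ0 hx hxl
  have g1 : n₁ ≤ n := by omega
  have g2 : n₂ ≤ n := by omega
  have g3 : n₃ ≤ n := by omega
  have g4 : 2 ≤ n := by omega
  have hxl' : x ^ n ≤ lam' ^ n * max 1 κ :=
    hxl.trans (mul_le_mul_of_nonneg_right (pow_le_pow_left₀ hlam0 p3 n) (by positivity))
  have hq4 : 4 * q ^ n ≤ θ ^ n := by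
    have h1 := hn₃ n g3
    rw [pow_zero, one_mul, div_pow, ← mul_div_assoc, div_le_iff₀ (by positivity), one_mul] at h1
    exact h1
  have heq : e ^ n ≤ q ^ n := pow_le_pow_left₀ he0.le (le_max_left _ _) n
  have hqn0 : 0 < q ^ n := by positivity
  set S := (allMat n).filter (fun M => SparsePaving M) with hS
  -- the sparse paving matroids of rank `r`
  set SP : ℕ → ℝ := fun r => ∑ M ∈ S with rk M = r, κ ^ numCH M with hSP
  have hSP0 : ∀ r, 0 ≤ SP r := fun r => sum_nonneg (fun _ _ => by positivity)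
  have hZ : ∀ r, 0 < r → r < n → Zs n r κ ≤ SP r := by
    intro r hr0 hrn
    refine (Zs_le r hr0 hrn κ hκ0).trans (le_of_eq ?_)
    rw [hSP, hS]
    simp only
    rw [filter_filter]
    congr 1
    ext M
    simp only [mem_filter]
    tauto
  -- the bound in the middle ranks
  have key : ∀ r, (1 - δ) * n ≤ 2 * ((min r (n - r) : ℕ) : ℝ) → r ≤ n →
      ∑ M ∈ (allMat n).filter (fun M => rk M = r ∧
        ¬ SparsePaving M ∧ (2 * μ) ^ n ≤ (numOther M : ℝ)), x ^ numOther M * κ ^ numCH M ≤
      3 * e ^ n * SP r := by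
    intro r hmid hrn
    obtain ⟨h4K, hnum⟩ := hn₁ n (min r (n - r)) g1 hmid
    have hmr : min r (n - r) ≤ r := min_le_left _ _
    have hmr' : min r (n - r) + r ≤ n := by omega
    have h1 := mid_sum (by omega) r κ x lam' hκ0 hx p1.le hxl'
      (fun u => (2 * μ) ^ n ≤ (u : ℝ))
    have h2 := tail_sum (n := n) r K (min r (n - r)) hK h4K hmr hmr' l σ δ (2 * μ) lam' hl0.le
      hσ0.le hδ0.le (by linarith) p1.le hexpls.ge
    have h3 := h2.trans hnum
    have hZr := hZ r (by omega) (by omega)
    have hz0 := Zs_nonneg n r hκ0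
    have h5 := h1.trans (mul_le_mul_of_nonneg_right (le_trans (le_of_eq (by congr!)) h3) hz0)
    have h6 : 3 * e ^ n * Zs n r κ ≤ 3 * e ^ n * SP r :=
      mul_le_mul_of_nonneg_left hZr (by positivity)
    refine le_trans (le_of_eq ?_) (h5.trans h6)
    congr!
  -- the weight of the sparse paving matroids
  have hwS : wt x κ {M : Matroid (Fin n) | SparsePaving M} = ∑ M ∈ S, κ ^ numCH M := by
    unfold wt
    rw [hS]
    refine sum_congr (by congr!) (fun M hM => ?_)
    rw [mem_filter, mem_allMat] at hM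
    rw [numOther_eq_zero hM.1 hM.2, pow_zero, one_mul]
  have hwSr : ∀ r : ℕ, wt x κ {M : Matroid (Fin n) | M.eRank = r ∧ SparsePaving M} = SP r := by
    intro r
    unfold wt
    rw [hSP, hS]
    simp only
    rw [filter_filter]
    refine sum_congr ?_ (fun M hM => ?_)
    · ext M
      simp only [mem_filter, Set.mem_ofPred_eq, eRank_rk, Nat.cast_inj]
      tauto
    · rw [mem_filter, mem_allMat] at hM
      rw [numOther_eq_zero hM.1 hM.2.1, pow_zero, one_mul]
  constructor
  · intro hκ
    have hmax1 : (1 : ℝ) ≤ max 1 κ := le_max_left _ _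
    have hxκ : x ≤ max 1 κ := by
      have h1 : x ^ n ≤ (max 1 κ) ^ n := by
        calc x ^ n ≤ lam' ^ n * max 1 κ := hxl'
          _ ≤ 1 * max 1 κ := by
              apply mul_le_mul_of_nonneg_right _ (by positivity)
              exact pow_le_one₀ p1.le (by linarith)
          _ = (max 1 κ) ^ 1 := by rw [one_mul, pow_one]
          _ ≤ (max 1 κ) ^ n := pow_le_pow_right₀ hmax1 (by omega)
      exact (pow_le_pow_iff_left₀ hx (by positivity) (by omega)).1 h1
    set A := (allMat n).filter
      (fun M => ¬ SparsePaving M ∧ (2 * μ) ^ n ≤ (numOther M : ℝ)) with hA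
    have hAmap : ∀ M ∈ A, rk M ∈ range (n + 1) :=
      fun M _ => mem_range.2 (by have := rk_le M; omega)
    have hSmap : ∀ M ∈ S, rk M ∈ range (n + 1) :=
      fun M _ => mem_range.2 (by have := rk_le M; omega)
    have hSPle : ∀ r, SP r ≤ ∑ M ∈ S, κ ^ numCH M := fun r =>
      sum_le_sum_of_subset_of_nonneg (filter_subset _ _) (fun _ _ _ => by positivity)
    have key2 : ∀ r ∈ range (n + 1), ∑ M ∈ A with rk M = r, x ^ numOther M * κ ^ numCH M ≤
        3 * e ^ n * SP r + (1 / 2) ^ n / (n + 1) * SP (n / 2) := by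
      intro r hr
      have hrn : r ≤ n := by have := mem_range.1 hr; omega
      have hAr : A.filter (fun M => rk M = r) = (allMat n).filter (fun M => rk M = r ∧
          ¬ SparsePaving M ∧ (2 * μ) ^ n ≤ (numOther M : ℝ)) := by
        rw [hA, filter_filter]
        ext M
        simp only [mem_filter]
        tauto
      rw [hAr]
      by_cases hmid : (1 - δ) * n ≤ 2 * ((min r (n - r) : ℕ) : ℝ)
      · have h7 : 0 ≤ (1 / 2 : ℝ) ^ n / (n + 1) * SP (n / 2) :=
          mul_nonneg (by positivity) (hSP0 _)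
        exact (key r hmid hrn).trans (le_add_of_nonneg_right h7)
      · push Not at hmid
        have h1 := ext_sum (n := n) r κ x hκ0 hx hxκ
          (fun M => ¬ SparsePaving M ∧ (2 * μ) ^ n ≤ (numOther M : ℝ))
        have h2 := hn₂ n r g2 hrn hmid κ hκ
        have h3 := Zs_ge (n := n) (by omega) (n / 2) κ hκ0
        have h4 := hZ (n / 2) (by omega) (by omega)
        have hn1 : (0 : ℝ) < n + 1 := by positivity
        have h5 : (2 * max 1 κ) ^ (n.choose r) ≤ (1 / 2) ^ n / (n + 1) * SP (n / 2) :=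
          calc (2 * max 1 κ) ^ (n.choose r)
              ≤ (1 / 2) ^ n * (1 + κ) ^ (n.choose (n / 2) / n) / (n + 1) := by
                rw [le_div_iff₀ hn1, mul_comm]
                exact h2
            _ = (1 / 2) ^ n / (n + 1) * (1 + κ) ^ (n.choose (n / 2) / n) := by ring
            _ ≤ (1 / 2) ^ n / (n + 1) * SP (n / 2) :=
                mul_le_mul_of_nonneg_left (h3.trans h4) (by positivity)
        have h7 : 0 ≤ 3 * e ^ n * SP r := mul_nonneg (by positivity) (hSP0 _)
        refine le_trans (le_of_eq ?_) (h1.trans (h5.trans (le_add_of_nonneg_left h7)))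
        congr!
    have hsumSP : ∑ r ∈ range (n + 1), SP r = ∑ M ∈ S, κ ^ numCH M :=
      sum_fiberwise_of_maps_to hSmap _
    rw [hwS]
    set tot := ∑ M ∈ S, κ ^ numCH M with htot
    have htot0 : 0 ≤ tot := sum_nonneg (fun _ _ => by positivity)
    calc wt x κ {M : Matroid (Fin n) | ¬ SparsePaving M ∧ (2 * μ) ^ n ≤ (numOther M : ℝ)}
        = ∑ M ∈ A, x ^ numOther M * κ ^ numCH M := by
          unfold wt
          rw [hA]
          congr!
      _ = ∑ r ∈ range (n + 1), ∑ M ∈ A with rk M = r, x ^ numOther M * κ ^ numCH M :=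
          (sum_fiberwise_of_maps_to hAmap _).symm
      _ ≤ ∑ r ∈ range (n + 1), (3 * e ^ n * SP r + (1 / 2) ^ n / (n + 1) * SP (n / 2)) :=
          sum_le_sum key2
      _ = 3 * e ^ n * tot + (1 / 2) ^ n * SP (n / 2) := by
          rw [sum_add_distrib, ← mul_sum, hsumSP, sum_const, card_range, nsmul_eq_mul]
          have hn1 : ((n : ℝ) + 1) ≠ 0 := by positivity
          push_cast
          field_simp
      _ ≤ 3 * q ^ n * tot + q ^ n * tot := by
          apply add_le_add
          · apply mul_le_mul_of_nonneg_right _ htot0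
            exact mul_le_mul_of_nonneg_left heq (by norm_num)
          · apply mul_le_mul _ (hSPle _) (hSP0 _) (by positivity)
            exact pow_le_pow_left₀ (by norm_num) (le_max_right _ _) n
      _ = 4 * q ^ n * tot := by ring
      _ ≤ θ ^ n * tot := mul_le_mul_of_nonneg_right hq4 htot0
  · intro r hr1 hr2
    have hn0 : (0 : ℝ) < n := by
      have : 0 < n := by omega
      exact_mod_cast this
    have hrn : r ≤ n := by
      have : (r : ℝ) ≤ n := by nlinarith
      exact_mod_cast this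
    have hmid : (1 - δ) * n ≤ 2 * ((min r (n - r) : ℕ) : ℝ) := by
      rcases le_total r (n - r) with h | h
      · rw [min_eq_left h]
        exact hr1
      · rw [min_eq_right h, Nat.cast_sub hrn]
        linarith
    rw [hwSr r]
    calc wt x κ {M : Matroid (Fin n) | M.eRank = r ∧ ¬ SparsePaving M ∧
            (2 * μ) ^ n ≤ (numOther M : ℝ)}
        = ∑ M ∈ (allMat n).filter (fun M => rk M = r ∧
            ¬ SparsePaving M ∧ (2 * μ) ^ n ≤ (numOther M : ℝ)),
            x ^ numOther M * κ ^ numCH M := by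
          unfold wt
          refine sum_congr ?_ (fun _ _ => rfl)
          ext M
          simp only [mem_filter, Set.mem_ofPred_eq, eRank_rk, Nat.cast_inj]
      _ ≤ 3 * e ^ n * SP r := key r hmid hrn
      _ ≤ θ ^ n * SP r := by
          apply mul_le_mul_of_nonneg_right _ (hSP0 r)
          linarith

end Pool.Agent.Results.MP_6d0648_co.Weighted
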